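import Pool.Agent.Lib_helper27.GC7.Final

/-!
# MP_300e7b_co: the maximum is attained at the corner paths, in every box

The box has the rows `0, ..., m` and the columns `0, ..., n`, `N p` is the number of standard Young
tableaux which produce the path `p`, and `p₁`, `p₂` are the two corner paths. No path is produced
by more tableaux than `p₁`, nor by more tableaux than `p₂` (so `N p₁ = N p₂`). This answers Q1.
-/

set_option autoImplicit false

namespace Pool.Agent.Results.MP_300e7b_co.Maximum

open Pool.Agent.Lib_helper5.TC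

theorem result (m n : ℕ) (p p₁ p₂ : Fin (m + n + 1) → Cell m n)
    (hp : IsPath p) (hp₁ : IsPath p₁) (hp₂ : IsPath p₂)
    -- `p₁` and `p₂` are the two corner paths
    (h₁ : ∃ k, p₁ k = (0, Fin.last n)) (h₂ : ∃ k, p₂ k = (Fin.last m, 0)) :
    N p ≤ min (N p₁) (N p₂) :=
  le_min (Pool.Agent.Lib_helper27.GC7.N_le_corner' hp hp₁ h₁)
    (Pool.Agent.Lib_helper27.GC7.N_le_corner hp hp₂ h₂)

end Pool.Agent.Results.MP_300e7b_co.Maximum
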